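import Mathlib

set_option autoImplicit false
open MvPolynomial Filter

namespace Pool.Agent.H.MP_bb5dbd_ag
variable {σ : Type} [Fintype σ]

/-- The field of rational functions. -/
def KK (σ : Type) : Type := FractionRing (MvPolynomial σ ℂ)
noncomputable instance (σ : Type) : Field (KK σ) := inferInstanceAs (Field (FractionRing (MvPolynomial σ ℂ)))
noncomputable instance (σ : Type) : Algebra (MvPolynomial σ ℂ) (KK σ) :=
  inferInstanceAs (Algebra (MvPolynomial σ ℂ) (FractionRing (MvPolynomial σ ℂ)))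
instance (σ : Type) : IsFractionRing (MvPolynomial σ ℂ) (KK σ) :=
  inferInstanceAs (IsFractionRing (MvPolynomial σ ℂ) (FractionRing (MvPolynomial σ ℂ)))
noncomputable instance (σ : Type) : Algebra ℂ (KK σ) :=
  ((algebraMap (MvPolynomial σ ℂ) (KK σ)).comp (algebraMap ℂ _)).toAlgebra
instance (σ : Type) : IsScalarTower ℂ (MvPolynomial σ ℂ) (KK σ) := IsScalarTower.of_algebraMap_eq fun _ => rfl

/-- The field of rational functions in one variable over `F`. -/
def RF (F : Type) [Field F] : Type := FractionRing (Polynomial F)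
section
variable (F : Type) [Field F]
noncomputable instance : Field (RF F) := inferInstanceAs (Field (FractionRing (Polynomial F)))
noncomputable instance : Algebra (Polynomial F) (RF F) :=
  inferInstanceAs (Algebra (Polynomial F) (FractionRing (Polynomial F)))
instance : IsFractionRing (Polynomial F) (RF F) :=
  inferInstanceAs (IsFractionRing (Polynomial F) (FractionRing (Polynomial F)))
noncomputable instance : Algebra F (RF F) := ((algebraMap (Polynomial F) (RF F)).comp Polynomial.C).toAlgebra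
instance : IsScalarTower F (Polynomial F) (RF F) := IsScalarTower.of_algebraMap_eq fun _ => rfl
variable [Algebra ℂ F]
noncomputable instance : Algebra ℂ (RF F) := ((algebraMap F (RF F)).comp (algebraMap ℂ F)).toAlgebra
instance : IsScalarTower ℂ F (RF F) := IsScalarTower.of_algebraMap_eq fun _ => rfl
instance : IsScalarTower ℂ (Polynomial F) (RF F) := IsScalarTower.of_algebraMap_eq fun _ => rfl
end

theorem RF_trans {F : Type} [Field F] {q : Polynomial F} (h : q.natDegree ≠ 0) :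
    Transcendental F (algebraMap (Polynomial F) (RF F) q) :=
  (transcendental_algebraMap_iff (IsFractionRing.injective _ _)).mpr (Polynomial.transcendental q h
    (mem_nonZeroDivisors_of_ne_zero (Polynomial.leadingCoeff_ne_zero.mpr (by rintro rfl; simp at h))))

theorem zero_of_open {G : MvPolynomial σ ℂ} {V : Set (σ → ℂ)} (hV : IsOpen V) (hne : V.Nonempty)
    (h : ∀ p ∈ V, eval p G = 0) : G = 0 := by
  obtain ⟨a, ha⟩ := hne
  have an : AnalyticOnNhd ℂ (fun p : σ → ℂ => eval p G) Set.univ := AnalyticOnNhd.eval_mvPolynomial G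
  have := an.eqOn_zero_of_preconnected_of_eventuallyEq_zero isPreconnected_univ (Set.mem_univ a)
    (by filter_upwards [hV.mem_nhds ha] with t ht using h t ht)
  exact MvPolynomial.funext fun x => by simpa using this (Set.mem_univ x)

/-- The filter of Zariski dense open sets. -/
def gen (σ : Type) : Filter (σ → ℂ) where
  sets := {S | ∃ G : MvPolynomial σ ℂ, G ≠ 0 ∧ ∀ p, eval p G ≠ 0 → p ∈ S}
  univ_sets := ⟨1, one_ne_zero, fun _ _ => trivial⟩
  sets_of_superset := fun ⟨G, h1, h2⟩ h => ⟨G, h1, fun p hp => h (h2 p hp)⟩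
  inter_sets := fun ⟨G, h1, h2⟩ ⟨G', h3, h4⟩ => ⟨G * G', mul_ne_zero h1 h3, fun p hp => by
    rw [map_mul, mul_ne_zero_iff] at hp
    exact ⟨h2 p hp.1, h4 p hp.2⟩⟩

theorem gen_inter {S V : Set (σ → ℂ)} (hS : S ∈ gen σ) (hV : IsOpen V) (hne : V.Nonempty) :
    ∃ p ∈ V, p ∈ S := by
  obtain ⟨G, h1, h2⟩ := hS
  by_contra! h
  exact h1 (zero_of_open hV hne fun p hp => by_contra fun h' => h p hp (h2 p h'))

theorem gen_open {S : (σ → ℂ) → Prop} (hS : ∀ᶠ p in gen σ, S p) :
    ∃ U : Set (σ → ℂ), IsOpen U ∧ U.Nonempty ∧ ∀ p ∈ U, S p := by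
  obtain ⟨G, h1, h2⟩ := hS
  refine ⟨{p | eval p G ≠ 0}, isOpen_ne_fun (MvPolynomial.continuous_eval G) continuous_const, ?_, h2⟩
  by_contra h
  exact h1 (MvPolynomial.funext fun x => by_contra fun h' => h ⟨x, by simpa using h'⟩)

noncomputable def E0 (σ : Type) : MvPolynomial σ ℂ →+* Germ (gen σ) ℂ :=
  (Germ.coeRingHom _).comp (Pi.ringHom fun p => eval p)

omit [Fintype σ] in
theorem E0_unit (y : nonZeroDivisors (MvPolynomial σ ℂ)) : IsUnit (E0 σ y) := by
  refine IsUnit.of_mul_eq_one ((fun p => (eval p y.1)⁻¹ : (σ → ℂ) → ℂ) : Germ (gen σ) ℂ) ?_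
  exact Germ.coe_eq.mpr ⟨y, nonZeroDivisors.coe_ne_zero y, fun p hp => mul_inv_cancel₀ hp⟩

noncomputable def EE (σ : Type) : KK σ →+* Germ (gen σ) ℂ := IsLocalization.lift E0_unit

/-- The rational function `f` is represented by the function `g`. -/
def Rp (f : KK σ) (g : (σ → ℂ) → ℂ) : Prop := EE σ f = (g : Germ (gen σ) ℂ)

noncomputable def xx (σ : Type) (i : σ) : KK σ := algebraMap (MvPolynomial σ ℂ) _ (X i)

section
omit [Fintype σ]
variable {f f' : KK σ} {g g' : (σ → ℂ) → ℂ}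

theorem Rp.poly (G : MvPolynomial σ ℂ) : Rp (algebraMap _ _ G) fun p => eval p G :=
  IsLocalization.lift_eq E0_unit G

theorem Rp.x (i : σ) : Rp (xx σ i) fun p => p i := by simpa [xx] using Rp.poly (X i : MvPolynomial σ ℂ)

theorem Rp.const (c : ℂ) : Rp (algebraMap ℂ (KK σ) c) fun _ => c := by
  rw [IsScalarTower.algebraMap_apply ℂ (MvPolynomial σ ℂ)]
  simpa using Rp.poly (C c : MvPolynomial σ ℂ)

theorem Rp.one : Rp (1 : KK σ) fun _ => 1 := by simpa using Rp.const (σ := σ) 1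

theorem Rp.add (h : Rp f g) (h' : Rp f' g') : Rp (f + f') fun p => g p + g' p := by
  rw [Rp, map_add, h, h']; rfl

theorem Rp.sub (h : Rp f g) (h' : Rp f' g') : Rp (f - f') fun p => g p - g' p := by
  rw [Rp, map_sub, h, h']; rfl

theorem Rp.mul (h : Rp f g) (h' : Rp f' g') : Rp (f * f') fun p => g p * g' p := by
  rw [Rp, map_mul, h, h']; rfl

theorem Rp.eq (h : Rp f g) (h' : Rp f g') : ∀ᶠ p in gen σ, g p = g' p := Germ.coe_eq.mp (h.symm.trans h')

theorem Rp.inv (h : Rp f g) : Rp f⁻¹ fun p => (g p)⁻¹ := by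
  by_cases h0 : f = 0
  · subst h0
    have := h.eq (by simpa using Rp.const (σ := σ) 0 : Rp 0 fun _ => 0)
    rw [inv_zero, Rp, map_zero]
    exact Germ.coe_eq.mpr (this.mono fun p hp => by simp [hp])
  · obtain ⟨k, hk⟩ := Quot.exists_rep (EE σ f⁻¹)
    have h1 : Rp f⁻¹ k := hk.symm
    have := (h.mul h1).eq (mul_inv_cancel₀ h0 ▸ Rp.one)
    exact h1.trans (Germ.coe_eq.mpr (this.mono fun p hp => eq_inv_of_mul_eq_one_right hp))

theorem Rp.div (h : Rp f g) (h' : Rp f' g') : Rp (f / f') fun p => g p / g' p := by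
  simpa only [div_eq_mul_inv] using h.mul h'.inv

theorem Rp.ne (h : Rp f g) (h0 : f ≠ 0) : ∀ᶠ p in gen σ, g p ≠ 0 :=
  ((h.mul h.inv).eq (mul_inv_cancel₀ h0 ▸ Rp.one)).mono fun p hp h => by simp [h] at hp

theorem Rp.pow (h : Rp f g) (n : ℕ) : Rp (f ^ n) fun p => g p ^ n := by
  induction n with
  | zero => simpa using Rp.one
  | succ n ih => simpa only [pow_succ] using ih.mul h

theorem Rp.zpow (h : Rp f g) (n : ℤ) : Rp (f ^ n) fun p => g p ^ n := by
  cases n with
  | ofNat n => simpa using h.pow n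
  | negSucc n => simpa only [zpow_negSucc] using (h.pow (n + 1)).inv

theorem Rp.aev {τ : Type} {v : τ → KK σ} {V : (σ → ℂ) → τ → ℂ} (h : ∀ i, Rp (v i) fun p => V p i)
    (G : MvPolynomial τ ℂ) : Rp (aeval v G) fun p => eval (V p) G := by
  induction G using MvPolynomial.induction_on with
  | C r => simpa using Rp.const r
  | add p q hp hq => simpa using hp.add hq
  | mul_X p i hp => simpa using hp.mul (h i)
end

theorem Rp.eq_of_open {f f' : KK σ} {g g' : (σ → ℂ) → ℂ} (h : Rp f g) (h' : Rp f' g') {V : Set (σ → ℂ)}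
    (hV : IsOpen V) (hne : V.Nonempty) (e : ∀ p ∈ V, g p = g' p) : f = f' := by
  by_contra h0
  obtain ⟨p, h1, h2⟩ := gen_inter ((h.sub h').ne (sub_ne_zero.mpr h0)) hV hne
  exact h2 (sub_eq_zero.mpr (e p h1))

abbrev R3 := MvPolynomial (Fin 3) ℂ
abbrev K3 := KK (Fin 3)
noncomputable abbrev x3 := xx (Fin 3)

/-- A rational map evaluated at a point with values in a field. -/
noncomputable def rm {Ω : Type} [Field Ω] [Algebra ℂ Ω] (P : Fin 3 → R3) (Q : R3) (y : Fin 3 → Ω)
    (i : Fin 3) : Ω := aeval y (P i) / aeval y Q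

omit [Fintype σ] in
theorem Rp.rm {v : Fin 3 → KK σ} {V : (σ → ℂ) → Fin 3 → ℂ} (h : ∀ i, Rp (v i) fun p => V p i)
    (P : Fin 3 → R3) (Q : R3) (i : Fin 3) : Rp (rm P Q v i) fun p => eval (V p) (P i) / eval (V p) Q :=
  (Rp.aev h _).div (Rp.aev h _)

variable {Ω Ω' : Type} [Field Ω] [Algebra ℂ Ω] [Field Ω'] [Algebra ℂ Ω']

theorem map_aev {τ : Type} (θ : Ω →ₐ[ℂ] Ω') (y : τ → Ω) (G : MvPolynomial τ ℂ) :
    θ (aeval y G) = aeval (fun j => θ (y j)) G := by
  rw [← AlgHom.comp_apply, comp_aeval]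

theorem map_rm (θ : Ω →ₐ[ℂ] Ω') (P : Fin 3 → R3) (Q : R3) (y : Fin 3 → Ω) (i : Fin 3) :
    θ (rm P Q y i) = rm P Q (fun j => θ (y j)) i := by
  rw [rm, map_div₀, map_aev, map_aev, rm]

omit [Fintype σ] in
theorem aev_xx (G : MvPolynomial σ ℂ) : aeval (xx σ) G = algebraMap _ (KK σ) G := by
  have : aeval (xx σ) = IsScalarTower.toAlgHom ℂ (MvPolynomial σ ℂ) (KK σ) :=
    MvPolynomial.algHom_ext fun i => by simp [xx]
  rw [this]; rfl

theorem aev_ne (θ : K3 →ₐ[ℂ] Ω) {G : R3} (h : G ≠ 0) : aeval (fun j => θ (x3 j)) G ≠ 0 := by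
  rw [← map_aev, aev_xx, map_ne_zero]
  exact (map_ne_zero_iff _ (IsFractionRing.injective _ _)).mpr h

omit [Fintype σ] in
theorem lift_hom (v : σ → Ω) (h : AlgebraicIndependent ℂ v) : ∃ θ : KK σ →ₐ[ℂ] Ω, ∀ i, θ (xx σ i) = v i :=
  ⟨IsFractionRing.liftAlgHom (g := aeval v) h, fun i => by
    rw [xx, IsFractionRing.liftAlgHom_apply, IsFractionRing.lift_algebraMap]; simp⟩

omit [Fintype σ] in
theorem hom_ext {θ θ' : KK σ →ₐ[ℂ] Ω} (h : ∀ i, θ (xx σ i) = θ' (xx σ i)) : θ = θ' := by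
  refine IsLocalization.algHom_ext (nonZeroDivisors (MvPolynomial σ ℂ)) ?_
  exact MvPolynomial.algHom_ext h

omit [Fintype σ] in
theorem xx_ind : AlgebraicIndependent ℂ (xx σ) := fun a b h =>
  IsFractionRing.injective _ (KK σ) (by rwa [aev_xx, aev_xx] at h)

theorem trdeg3 : Algebra.trdeg ℂ K3 = 3 := by
  rw [← trdeg_add_eq ℂ R3 (A := K3)]
  haveI : Algebra.IsAlgebraic R3 K3 := IsLocalization.isAlgebraic _ (nonZeroDivisors R3)
  simp [trdeg_eq_zero]

theorem top_of_x {S : IntermediateField ℂ K3} (h : ∀ i, x3 i ∈ S) : S = ⊤ := by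
  have h1 : ∀ G : R3, algebraMap R3 K3 G ∈ S := fun G => by
    rw [← aev_xx]
    induction G using MvPolynomial.induction_on with
    | C r => simp
    | add p q hp hq => rw [map_add]; exact add_mem hp hq
    | mul_X p i hp => rw [map_mul, aeval_X]; exact mul_mem hp (h i)
  refine eq_top_iff.mpr fun f _ => ?_
  obtain ⟨a, b, -, rfl⟩ := IsFractionRing.div_surjective (A := R3) f
  exact div_mem (h1 a) (h1 b)

open scoped IntermediateField.algebraAdjoinAdjoin in
theorem gen_equiv (v : Fin 3 → K3) (h : ∀ i, x3 i ∈ IntermediateField.adjoin ℂ (Set.range v)) :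
    ∃ θ θ' : K3 →ₐ[ℂ] K3, (∀ i, θ (x3 i) = v i) ∧ (∀ f, θ (θ' f) = f) ∧ ∀ f, θ' (θ f) = f := by
  have ht := top_of_x h
  haveI : Algebra.IsAlgebraic (IntermediateField.adjoin ℂ (Set.range v)) K3 := ⟨fun f =>
    isAlgebraic_algebraMap (R := IntermediateField.adjoin ℂ (Set.range v))
      (⟨f, ht ▸ IntermediateField.mem_top⟩ : IntermediateField.adjoin ℂ (Set.range v))⟩
  haveI : Algebra.IsAlgebraic (Algebra.adjoin ℂ (Set.range v)) K3 :=
    Algebra.IsAlgebraic.trans _ (IntermediateField.adjoin ℂ (Set.range v)) _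
  obtain ⟨θ, hθ⟩ := lift_hom v (Algebra.IsAlgebraic.isTranscendenceBasis_of_le_trdeg_of_finite ℂ v
    (by simp [trdeg3])).1
  have : IntermediateField.adjoin ℂ (Set.range v) ≤ θ.fieldRange :=
    IntermediateField.adjoin_le_iff.mpr (by rintro _ ⟨i, rfl⟩; exact ⟨_, hθ i⟩)
  let e := AlgEquiv.ofBijective θ ⟨θ.injective, fun f => this (ht ▸ IntermediateField.mem_top)⟩
  exact ⟨θ, e.symm, hθ, e.apply_symm_apply, e.symm_apply_apply⟩

theorem cden (v : Fin 3 → K3) : ∃ (L : Fin 3 → R3) (E : R3), E ≠ 0 ∧ ∀ i, v i = rm L E x3 i := by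
  obtain ⟨b, hb⟩ := IsLocalization.exist_integer_multiples_of_finite (nonZeroDivisors R3) v
  choose L hL using hb
  refine ⟨L, b, nonZeroDivisors.coe_ne_zero b, fun i => ?_⟩
  rw [rm, aev_xx, aev_xx, hL, Algebra.smul_def, mul_div_cancel_left₀]
  exact (map_ne_zero_iff _ (IsFractionRing.injective _ _)).mpr (nonZeroDivisors.coe_ne_zero b)

end Pool.Agent.H.MP_bb5dbd_ag
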