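import Pool.Agent.H.MP_bb5dbd_ag.A

set_option autoImplicit false
open MvPolynomial Filter

namespace Pool.Agent.H.MP_bb5dbd_ag

abbrev M3 := RF K3
noncomputable abbrev io : K3 →ₐ[ℂ] M3 := IsScalarTower.toAlgHom ℂ K3 M3
noncomputable def rr : M3 := algebraMap (Polynomial K3) M3 Polynomial.X
theorem rr_tr : Transcendental K3 rr := RF_trans (by simp)

/-- `G (S x)` as a polynomial in `S`. -/
noncomputable def SS : R3 →ₐ[ℂ] Polynomial R3 := aeval fun j => Polynomial.X * Polynomial.C (X j)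

theorem SS_ev {Ω : Type} [CommRing Ω] [Algebra ℂ Ω] (y : Fin 3 → Ω) (z : Ω) (G : R3) :
    Polynomial.eval₂ (aeval y : R3 →ₐ[ℂ] Ω).toRingHom z (SS G) = aeval (fun j => z * y j) G := by
  induction G using MvPolynomial.induction_on with
  | C r => rw [← algebraMap_eq, AlgHom.commutes, Polynomial.algebraMap_apply, Polynomial.eval₂_C]; simp
  | add p q hp hq => rw [map_add, Polynomial.eval₂_add, hp, hq, map_add]
  | mul_X p i hp => rw [map_mul, Polynomial.eval₂_mul, hp, map_mul]; simp [SS, mul_comm z]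

theorem ev_inj {F Ω : Type} [Field F] [Field Ω] [Algebra ℂ F] [Algebra ℂ Ω] [Algebra F Ω] (θ : K3 →ₐ[ℂ] F)
    [IsScalarTower ℂ F Ω] {z : Ω} (hz : Transcendental F z) {q : Polynomial R3}
    (h : Polynomial.eval₂ (aeval (fun j => algebraMap F Ω (θ (x3 j))) : R3 →ₐ[ℂ] Ω).toRingHom z q = 0) :
    q = 0 := by
  let j : R3 →+* F := θ.toRingHom.comp (algebraMap R3 K3)
  have hj : Function.Injective j := θ.injective.comp (IsFractionRing.injective _ _)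
  have : (aeval (fun j => algebraMap F Ω (θ (x3 j))) : R3 →ₐ[ℂ] Ω).toRingHom = (algebraMap F Ω).comp j :=
    RingHom.ext fun G => by
      change _ = IsScalarTower.toAlgHom ℂ F Ω (θ (algebraMap R3 K3 G))
      rw [← aev_xx, map_aev, map_aev]; rfl
  rw [this, ← Polynomial.eval₂_map, ← Polynomial.aeval_def] at h
  exact (Polynomial.map_eq_zero_iff hj).mp (transcendental_iff.mp hz _ h)

theorem homog {τ : K3 →ₐ[ℂ] M3} (hτ : ∀ i, τ (x3 i) = rr * io (x3 i)) {L : Fin 3 → R3} {E : R3}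
    (hE : E ≠ 0) {i : Fin 3} (h : τ (rm L E x3 i) = rr * io (rm L E x3 i)) {Ω : Type} [CommRing Ω]
    [Algebra ℂ Ω] (y : Fin 3 → Ω) (z : Ω) :
    aeval (fun j => z * y j) (L i) * aeval y E = z * aeval y (L i) * aeval (fun j => z * y j) E := by
  have e : ∀ {Ω : Type} [CommRing Ω] [Algebra ℂ Ω] (y : Fin 3 → Ω) (z : Ω),
      Polynomial.eval₂ (aeval y : R3 →ₐ[ℂ] Ω).toRingHom z
        (SS (L i) * Polynomial.C E - Polynomial.X * Polynomial.C (L i) * SS E) =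
      aeval (fun j => z * y j) (L i) * aeval y E - z * aeval y (L i) * aeval (fun j => z * y j) E := by
    intro Ω _ _ y z
    simp only [Polynomial.eval₂_sub, Polynomial.eval₂_mul, SS_ev, Polynomial.eval₂_C, Polynomial.eval₂_X]
    rfl
  rw [← sub_eq_zero, ← e, ev_inj (AlgHom.id ℂ K3) rr_tr
    (q := SS (L i) * Polynomial.C E - Polynomial.X * Polynomial.C (L i) * SS E), Polynomial.eval₂_zero]
  rw [e, sub_eq_zero]
  rw [map_rm, map_rm, rm, rm] at h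
  have h1 := aev_ne τ hE
  have h2 := aev_ne io hE
  simp only [hτ] at h h1
  rw [← mul_div_assoc, div_eq_div_iff h1 h2] at h
  exact h

theorem rr_ne : (rr : M3) ≠ 0 := fun h => rr_tr (h ▸ isAlgebraic_zero)

theorem rf_lift (θ : K3 →ₐ[ℂ] K3) : ∃ Θ : M3 →ₐ[ℂ] M3, Θ rr = rr ∧ ∀ f, Θ (io f) = io (θ f) := by
  let g : Polynomial K3 →ₐ[ℂ] M3 := (IsScalarTower.toAlgHom ℂ (Polynomial K3) M3).comp (Polynomial.mapAlgHom θ)
  have hg : Function.Injective g :=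
    (IsFractionRing.injective (Polynomial K3) M3).comp (Polynomial.map_injective _ θ.injective)
  refine ⟨IsFractionRing.liftAlgHom hg, ?_, fun f => ?_⟩
  · rw [IsFractionRing.liftAlgHom_apply, rr, IsFractionRing.lift_algebraMap]
    simp [g]
  · rw [IsFractionRing.liftAlgHom_apply, show io f = algebraMap (Polynomial K3) M3 (Polynomial.C f) from rfl,
      IsFractionRing.lift_algebraMap]
    simp [g]; rfl

noncomputable def psi {Ω : Type} [Field Ω] (N : ℕ) (x : Fin 3 → Ω) : Fin 3 → Ω :=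
  ![x 0 * (x 2 + 1) ^ ((N : ℤ) - 1), x 1 / (x 2 + 1), x 2 / (x 2 + 1)]

theorem x2_ne : x3 2 + 1 ≠ 0 := by
  have := aev_ne (AlgHom.id ℂ K3) (G := X 2 + 1) fun h => by simpa using congrArg (eval 0) h
  simpa using this

theorem psi_equiv (N : ℕ) : ∃ Ψ : K3 →ₐ[ℂ] K3, ∀ i, Ψ (x3 i) = psi N x3 i := by
  refine (gen_equiv _ ?_).imp fun _ ⟨_, h, _⟩ => h
  set S := IntermediateField.adjoin ℂ (Set.range (psi N x3))
  have h : ∀ i, psi N x3 i ∈ S := fun i => IntermediateField.subset_adjoin _ _ ⟨i, rfl⟩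
  have h0 := x2_ne
  have h1 : x3 2 + 1 ∈ S := by
    have : x3 2 + 1 = (1 - psi N x3 2)⁻¹ := by
      refine eq_inv_of_mul_eq_one_left ?_
      simp only [psi, Matrix.cons_val]; field_simp; ring
    exact this ▸ inv_mem (sub_mem (one_mem _) (h 2))
  intro i
  fin_cases i
  · have : x3 0 = psi N x3 0 * ((x3 2 + 1) ^ ((N : ℤ) - 1))⁻¹ := by
      simp only [psi, Matrix.cons_val]; rw [mul_inv_cancel_right₀ (zpow_ne_zero _ h0)]
    exact this ▸ mul_mem (h 0) (inv_mem (zpow_mem h1 _))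
  · have : x3 1 = psi N x3 1 * (x3 2 + 1) := by simp only [psi, Matrix.cons_val]; field_simp
    exact this ▸ mul_mem (h 1) h1
  · simpa using sub_mem h1 (one_mem _)

theorem Rp.psi (N : ℕ) (i : Fin 3) : Rp (psi N x3 i) fun p => psi N p i := by
  have h := (Rp.x (2 : Fin 3)).add Rp.one
  fin_cases i
  · exact (Rp.x 0).mul (h.zpow _)
  · exact (Rp.x 1).div h
  · exact (Rp.x 2).div h

theorem fin1 {P : Fin 3 → R3} {Q : R3} {s τ : K3 →ₐ[ℂ] M3}
    (hτ : ∀ i, τ (x3 i) = rr * io (x3 i)) (hs : ∀ i, s (x3 i) = rr⁻¹ * rm P Q (fun j => rr * io (x3 j)) i)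
    (N : ℕ) {η ρ t : K3} (h1 : s η = io η) (h2 : τ η = rr ^ N * io η) (h3 : s ρ = io ρ) (h4 : τ ρ = io ρ)
    (h5 : s t = io t + rr) (h6 : τ t = rr⁻¹ * io t)
    (hg : ∀ i, x3 i ∈ IntermediateField.adjoin ℂ {η, ρ, t}) :
    ∃ (θ θ' : K3 →ₐ[ℂ] K3) (L : Fin 3 → R3) (E : R3), (∀ f, θ (θ' f) = f) ∧ (∀ f, θ' (θ f) = f) ∧ E ≠ 0 ∧
      (∀ i, θ' (x3 i) = rm L E x3 i) ∧ (∀ i (y : Fin 3 → ℂ) z,
        aeval (fun j => z * y j) (L i) * aeval y E = z * aeval y (L i) * aeval (fun j => z * y j) E) ∧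
      ∀ i, rm L E (psi N x3) i = rm P Q (fun j => θ' (x3 j)) i := by
  have hr := rr_ne
  have ht : t ≠ 0 := by
    rintro rfl
    rw [map_zero, map_zero, zero_add] at h5
    exact hr h5.symm
  have ht1 : io t ≠ 0 := (map_ne_zero _).mpr ht
  have ht2 : io t + rr ≠ 0 := h5 ▸ (map_ne_zero _).mpr ht
  obtain ⟨v, v0, v1, v2⟩ : ∃ v : Fin 3 → K3, v 0 = η * t ^ ((N : ℤ) - 1) ∧ v 1 = ρ * t⁻¹ ∧ v 2 = t⁻¹ :=
    ⟨![_, _, _], rfl, rfl, rfl⟩
  obtain ⟨θ, θ', hθ, k1, k2⟩ := gen_equiv v fun i => by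
    refine IntermediateField.adjoin_le_iff.mpr ?_ (hg i)
    set S := IntermediateField.adjoin ℂ (Set.range v)
    have h : ∀ i, v i ∈ S := fun i => IntermediateField.subset_adjoin _ _ ⟨i, rfl⟩
    have h0 : t ∈ S := by simpa [v2] using inv_mem (h 2)
    rintro _ (rfl | rfl | rfl)
    · simpa [v0, zpow_ne_zero _ ht] using mul_mem (h 0) (inv_mem (zpow_mem h0 ((N : ℤ) - 1)))
    · simpa [v1, ht] using mul_mem (h 1) h0
    · exact h0
  obtain ⟨Ψ, hΨ⟩ := psi_equiv N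
  obtain ⟨L, E, hE, hL⟩ := cden fun i => θ' (x3 i)
  have hv : ∀ i, τ (v i) = rr * io (v i) := by
    rw [Fin.forall_fin_succ, Fin.forall_fin_two]
    refine ⟨?_, ?_, ?_⟩
    · simp only [v0, map_mul, map_zpow₀, h2, h6, mul_zpow, inv_zpow, zpow_sub_one₀ hr, zpow_natCast]
      field_simp
    · change τ (v 1) = rr * io (v 1)
      simp only [v1, map_mul, map_inv₀, h4, h6]; field_simp
    · change τ (v 2) = rr * io (v 2)
      simp only [v2, map_inv₀, h6]; field_simp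
  have hw : ∀ i, τ (rm L E x3 i) = rr * io (rm L E x3 i) := fun i => by
    obtain ⟨Θ, e1, e2⟩ := rf_lift θ
    have : τ.comp θ = Θ.comp τ := hom_ext fun j => by
      change τ (θ (x3 j)) = Θ (τ (x3 j))
      rw [hτ, map_mul, e1, e2, hθ, hv]
    have h : τ (θ (θ' (x3 i))) = Θ (τ (θ' (x3 i))) := DFunLike.congr_fun this (θ' (x3 i))
    rw [← hL]
    refine Θ.injective ?_
    change Θ _ = Θ _
    rw [← h, map_mul, e1, e2, k1, hτ]
  have hH := fun i => @homog τ hτ L E hE i (hw i)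
  refine ⟨θ, θ', L, E, k1, k2, hE, hL, fun i => hH i, fun i => ?_⟩
  have e : ∀ j, τ (θ (Ψ (x3 j))) = rr * s (θ (x3 j)) := by
    have e1 : ∀ j, τ (θ (x3 j)) = rr * io (v j) := fun j => by rw [hθ, hv]
    have e2 : τ (θ (x3 2 + 1)) = (io t + rr) / io t := by
      rw [map_add, map_add, e1, v2, map_one, map_one, map_inv₀]; field_simp; ring
    rw [Fin.forall_fin_succ, Fin.forall_fin_two]
    refine ⟨?_, ?_, ?_⟩
    · rw [hΨ, hθ]
      change τ (θ (x3 0 * (x3 2 + 1) ^ ((N : ℤ) - 1))) = _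
      simp only [map_mul, map_zpow₀, e1, e2, v0, h1, h5, div_zpow]
      have := zpow_ne_zero ((N : ℤ) - 1) ht1
      field_simp
    · rw [hΨ, hθ]
      change τ (θ (x3 1 / (x3 2 + 1))) = rr * s (v 1)
      simp only [map_mul, map_div₀, e1, e2, v1, h3, h5, map_inv₀]
      field_simp
    · rw [hΨ, hθ]
      change τ (θ (x3 2 / (x3 2 + 1))) = rr * s (v 2)
      simp only [map_div₀, e1, e2, v2, h5, map_inv₀]
      field_simp
  refine (τ.comp θ).injective ?_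
  change (τ.comp θ) _ = (τ.comp θ) _
  have a1 : (τ.comp θ) (rm L E (psi N x3) i) = rm L E (fun j => rr * s (θ (x3 j))) i := by
    rw [map_rm]; simp only [← e, ← hΨ, AlgHom.comp_apply]
  have a2 : (τ.comp θ) (rm P Q (fun j => θ' (x3 j)) i) = rr * (s.comp θ) (rm L E x3 i) := by
    rw [map_rm, ← hL]
    simp only [AlgHom.comp_apply, k1, hτ, hs]
    rw [mul_inv_cancel_left₀ hr]
  have b1 := aev_ne ((τ.comp θ).comp Ψ) hE
  simp only [AlgHom.comp_apply, e] at b1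
  rw [a1, a2, map_rm, rm, rm, ← mul_div_assoc, div_eq_div_iff b1 (aev_ne (s.comp θ) hE)]
  exact hH i _ _

theorem fin (P : Fin 3 → R3) (Q : R3) (Φ : (Fin 3 → ℂ) → (Fin 3 → ℂ)) (hQ : Q ≠ 0)
    (hΦ : ∀ p : Fin 3 → ℂ, Φ p = fun i => eval p (P i) / eval p Q) (N : ℕ)
    (h : ∃ (θ θ' : K3 →ₐ[ℂ] K3) (L : Fin 3 → R3) (E : R3), (∀ f, θ (θ' f) = f) ∧ (∀ f, θ' (θ f) = f) ∧ E ≠ 0 ∧
      (∀ i, θ' (x3 i) = rm L E x3 i) ∧ (∀ i (y : Fin 3 → ℂ) z,
        aeval (fun j => z * y j) (L i) * aeval y E = z * aeval y (L i) * aeval (fun j => z * y j) E) ∧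
      ∀ i, rm L E (psi N x3) i = rm P Q (fun j => θ' (x3 j)) i) :
    ∃ (L : Fin 3 → R3) (E : R3) (M : Fin 3 → R3) (F : R3) (Λ Λ' : (Fin 3 → ℂ) → (Fin 3 → ℂ)) (N : ℕ),
        E ≠ 0 ∧ F ≠ 0 ∧
        (∀ p : Fin 3 → ℂ, Λ p = fun i => eval p (L i) / eval p E) ∧
        (∀ p : Fin 3 → ℂ, Λ' p = fun i => eval p (M i) / eval p F) ∧
        (∃ U : Set (Fin 3 → ℂ), IsOpen U ∧ U.Nonempty ∧ ∀ x ∈ U,
          eval x E ≠ 0 ∧ eval (Λ x) F ≠ 0 ∧ Λ' (Λ x) = x) ∧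
        (∃ U : Set (Fin 3 → ℂ), IsOpen U ∧ U.Nonempty ∧ ∀ x ∈ U,
          eval x F ≠ 0 ∧ eval (Λ' x) E ≠ 0 ∧ Λ (Λ' x) = x) ∧
        (∃ V : Set ((Fin 3 → ℂ) × ℂ), IsOpen V ∧ V.Nonempty ∧ ∀ q ∈ V,
          eval q.1 E ≠ 0 ∧ eval (q.2 • q.1) E ≠ 0 ∧ Λ (q.2 • q.1) = q.2 • Λ q.1) ∧
        (∃ U : Set (Fin 3 → ℂ), IsOpen U ∧ U.Nonempty ∧ ∀ x ∈ U,
          x 2 + 1 ≠ 0 ∧ eval x E ≠ 0 ∧ eval (Λ x) Q ≠ 0 ∧ eval (psi N x) E ≠ 0 ∧ Φ (Λ x) = Λ (psi N x)) := by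
  obtain ⟨θ, θ', L, E, k1, k2, hE, hL, hH, hc⟩ := h
  obtain ⟨Ψ, hΨ⟩ := psi_equiv N
  obtain ⟨M, F, hF, hM⟩ := cden fun i => θ (x3 i)
  have rL : ∀ i, Rp (θ' (x3 i)) fun p => eval p (L i) / eval p E := fun i => by
    rw [hL]; exact Rp.rm Rp.x L E i
  have rM : ∀ i, Rp (θ (x3 i)) fun p => eval p (M i) / eval p F := fun i => by
    rw [hM]; exact Rp.rm Rp.x M F i
  have nE := (Rp.aev Rp.x E).ne (aev_ne (AlgHom.id ℂ K3) hE)
  have nF := (Rp.aev Rp.x F).ne (aev_ne (AlgHom.id ℂ K3) hF)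
  have n1 := (Rp.aev (V := fun p i => eval p (L i) / eval p E) rL F).ne (aev_ne θ' hF)
  have n2 := (Rp.aev (V := fun p i => eval p (M i) / eval p F) rM E).ne (aev_ne θ hE)
  have n3 := (Rp.aev (V := fun p i => eval p (L i) / eval p E) rL Q).ne (aev_ne θ' hQ)
  have n4 := (Rp.aev (V := fun p => psi N p) (Rp.psi N) E).ne (by
    have := aev_ne Ψ hE
    rwa [show (fun j => Ψ (x3 j)) = psi N x3 from funext hΨ] at this)
  have n5 := ((Rp.x (2 : Fin 3)).add Rp.one).ne x2_ne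
  have m1 := eventually_all.mpr fun i => (Rp.rm (V := fun p i => eval p (L i) / eval p E) rL M F i).eq
    (g' := fun p => p i) (by rw [← map_rm, ← hM, k2]; exact Rp.x i)
  have m2 := eventually_all.mpr fun i => (Rp.rm (V := fun p i => eval p (M i) / eval p F) rM L E i).eq
    (g' := fun p => p i) (by rw [← map_rm, ← hL, k1]; exact Rp.x i)
  have m3 := eventually_all.mpr fun i => (Rp.rm (V := fun p i => eval p (L i) / eval p E) rL P Q i).eq
    (by rw [← hc]; exact Rp.rm (V := fun p => psi N p) (Rp.psi N) L E i)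
  refine ⟨L, E, M, F, fun p i => eval p (L i) / eval p E, fun p i => eval p (M i) / eval p F, N, hE, hF,
    fun _ => rfl, fun _ => rfl, gen_open ?_, gen_open ?_,
    ⟨{q | eval q.1 E ≠ 0 ∧ eval (q.2 • q.1) E ≠ 0}, ?_, ?_, fun q hq => ⟨hq.1, hq.2, funext fun i => ?_⟩⟩,
    gen_open ?_⟩
  · filter_upwards [nE, n1, m1] with p a b c using ⟨a, b, funext c⟩
  · filter_upwards [nF, n2, m2] with p a b c using ⟨a, b, funext c⟩
  · have c := MvPolynomial.continuous_eval E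
    exact (isOpen_ne_fun (c.comp continuous_fst) continuous_const).inter
      (isOpen_ne_fun (c.comp (continuous_snd.smul continuous_fst)) continuous_const)
  · obtain ⟨U, -, ⟨p, hp⟩, h⟩ := gen_open nE
    exact ⟨(p, 1), h p hp, by simpa using h p hp⟩
  · have := hH i q.1 q.2
    rw [Pi.smul_apply, smul_eq_mul, ← mul_div_assoc, div_eq_div_iff hq.2 hq.1]
    exact this
  · filter_upwards [n5, nE, n3, n4, m3] with p a b c d e using ⟨a, b, c, d, by rw [hΦ]; exact funext e⟩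

end Pool.Agent.H.MP_bb5dbd_ag
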