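import Pool.Agent.H.MP_bb5dbd_ag.D

set_option autoImplicit false
open Polynomial IntermediateField

namespace Pool.Agent.H.MP_bb5dbd_ag

open scoped IntermediateField.algebraAdjoinAdjoin in
theorem lur {ι : Type} [Finite ι] (F : IntermediateField ℂ K3) (hF : Algebra.trdeg ℂ F ≤ 1) (g : ι → K3)
    (hg : ∀ i, g i ∈ F) : ∃ ρ ∈ F, ∀ i, g i ∈ adjoin ℂ {ρ} := by
  by_cases h0 : ∀ i, ∃ c, g i = algebraMap ℂ K3 c
  · exact ⟨0, zero_mem _, fun i => (h0 i).elim fun c hc => hc ▸ IntermediateField.algebraMap_mem _ c⟩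
  push Not at h0
  obtain ⟨i0, h0⟩ := h0
  obtain ⟨h, hb⟩ := IsLocalization.exist_integer_multiples_of_finite (nonZeroDivisors R3) g
  choose a ha using hb
  have hj := IsFractionRing.injective R3 K3
  have hh : algebraMap R3 K3 h ≠ 0 := (map_ne_zero_iff _ hj).mpr (nonZeroDivisors.coe_ne_zero h)
  have hga : ∀ i, g i = algebraMap R3 K3 (a i) / algebraMap R3 K3 h := fun i => by
    rw [ha, Algebra.smul_def, mul_div_cancel_left₀ _ hh]
  have ex : ∀ G : R3, G ≠ 0 → ∃ p, MvPolynomial.eval p G ≠ 0 := fun G hG => by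
    by_contra! h'
    exact hG (MvPolynomial.funext fun x => by simpa using h' x)
  obtain ⟨p, hp⟩ := ex h (nonZeroDivisors.coe_ne_zero h)
  set c := MvPolynomial.eval p (a i0) / MvPolynomial.eval p h.1 with hc
  obtain ⟨q, hq⟩ := ex (h.1 * (a i0 - MvPolynomial.C c * h.1)) (mul_ne_zero (nonZeroDivisors.coe_ne_zero h) fun e =>
    h0 c (by rw [hga, sub_eq_zero.mp e, map_mul, mul_div_cancel_right₀ _ hh]; rfl))
  rw [map_mul, mul_ne_zero_iff] at hq
  let lam : R3 →ₐ[ℂ] ℂ[X] := MvPolynomial.aeval fun j => C (p j) + X * C (q j - p j)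
  have l0 : ∀ (z : ℂ) G, (lam G).eval z = MvPolynomial.eval (fun j => p j + z * (q j - p j)) G := fun z G => by
    rw [← coe_aeval_eq_eval, ← AlgHom.comp_apply, MvPolynomial.comp_aeval]
    simp [MvPolynomial.aeval_eq_eval]
  have l1 : lam h ≠ 0 := fun e => hp (by simpa [e] using (l0 0 h).symm)
  let κ : R3 →ₐ[ℂ] RatFunc ℂ := (IsScalarTower.toAlgHom ℂ ℂ[X] (RatFunc ℂ)).comp lam
  have κh : κ h ≠ 0 := RatFunc.algebraMap_ne_zero l1
  obtain ⟨O, k, hk⟩ := spec (IsScalarTower.toAlgHom ℂ R3 K3) hj κ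
  choose k1 k2 using fun i => hk (a i) h κh
  let A := Algebra.adjoin ℂ (Set.range g)
  have hA : A ≤ O := Algebra.adjoin_le (by rintro _ ⟨i, rfl⟩; exact hga i ▸ k1 i)
  have hAF : A ≤ F.toSubalgebra := Algebra.adjoin_le (by rintro _ ⟨i, rfl⟩; exact hg i)
  let θ0 : A →ₐ[ℂ] RatFunc ℂ := k.comp (Subalgebra.inclusion hA)
  let f0 : A := ⟨g i0, Algebra.subset_adjoin ⟨i0, rfl⟩⟩
  have t0 : Transcendental ℂ (θ0 f0) := by
    have : θ0 f0 = κ (a i0) / κ h := (congrArg k (Subtype.ext (hga i0))).trans (k2 i0)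
    rw [this]
    refine RatFunc.transcendental_of_ne_C _ fun ⟨c', e⟩ => ?_
    rw [div_eq_iff κh] at e
    have e' : lam (a i0) = C c' * lam h := RatFunc.algebraMap_injective ℂ (by rw [map_mul]; exact e)
    have e0 := congrArg (eval 0) e'
    have e1 := congrArg (eval 1) e'
    simp only [eval_mul, eval_C, l0, zero_mul, add_zero, one_mul, add_sub_cancel] at e0 e1
    refine hq.2 ?_
    rw [map_sub, map_mul, MvPolynomial.eval_C, hc, e0, mul_div_cancel_right₀ _ hp, e1, sub_self]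
  have hinj : Function.Injective θ0 := by
    have b : IsTranscendenceBasis ℂ fun _ : Unit => f0 :=
      AlgebraicIndependent.isTranscendenceBasis_of_trdeg_le_of_finite
        ((algebraicIndependent_singleton_iff ()).mpr fun h => t0 (h.algHom θ0))
        (((trdeg_le_of_injective (Subalgebra.inclusion hAF) (Subalgebra.inclusion_injective _)).trans hF).trans_eq
          (by simp))
    rw [injective_iff_map_eq_zero]
    intro y hy
    by_contra hy0
    refine Ideal.comap_ne_bot_of_algebraic_mem (I := RingHom.ker θ0) hy0 hy (b.isAlgebraic.isAlgebraic y) ?_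
    rw [eq_bot_iff]
    rintro ⟨d, hd⟩ h1
    rw [Set.range_const, Algebra.adjoin_singleton_eq_range_aeval] at hd
    obtain ⟨u, rfl⟩ := hd
    have : aeval (θ0 f0) u = 0 := (aeval_algHom_apply θ0 f0 u).trans h1
    exact Subtype.ext (by simp [transcendental_iff.mp t0 u this])
  let θ : adjoin ℂ (Set.range g) →ₐ[ℂ] RatFunc ℂ := IsFractionRing.liftAlgHom hinj
  obtain ⟨ρ, hρ⟩ := RatFunc.Luroth.generator_mem (E := θ.fieldRange)
  refine ⟨ρ, adjoin_le_iff.mpr (by rintro _ ⟨i, rfl⟩; exact hg i) ρ.2, fun i => ?_⟩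
  let y : adjoin ℂ (Set.range g) := ⟨g i, subset_adjoin _ _ ⟨i, rfl⟩⟩
  have h1 : θ y ∈ (adjoin ℂ {ρ}).map θ := by
    rw [adjoin_map, Set.image_singleton, show θ ρ = _ from hρ, ← RatFunc.Luroth.eq_adjoin_generator]
    exact ⟨y, rfl⟩
  obtain ⟨y', h2, h3⟩ := h1
  rw [show y' = y from θ.injective h3] at h2
  have : (adjoin ℂ (Set.range g)).val y ∈ (adjoin ℂ {ρ}).map (adjoin ℂ (Set.range g)).val := ⟨y, h2, rfl⟩
  rwa [adjoin_map, Set.image_singleton] at this

/-- Where two embeddings agree. -/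
noncomputable def EQ (θ : K3 →ₐ[ℂ] M3) : IntermediateField ℂ K3 :=
  (AlgHom.equalizer θ io).toIntermediateField fun x (h : θ x = io x) => by
    change θ x⁻¹ = io x⁻¹
    rw [map_inv₀, map_inv₀, h]

theorem tr {S : Type} [Field S] [Algebra S K3] (θ : K3 →ₐ[ℂ] M3)
    (hS : ∀ f : S, θ (algebraMap S K3 f) = io (algebraMap S K3 f)) {y : K3} {q : K3[X]} (hq : q.natDegree ≠ 0)
    (hy : θ y = algebraMap _ _ q) : Transcendental S y := fun ⟨p, h1, h2⟩ =>
  RF_trans hq ⟨p.map (algebraMap S K3), (Polynomial.map_ne_zero_iff (algebraMap S K3).injective).mpr h1, by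
    have := congrArg (θ : K3 →+* M3) h2
    rw [aeval_def, hom_eval₂, map_zero] at this
    rw [← this, aeval_def, eval₂_map, ← hy]
    congr 1
    exact RingHom.ext fun f => (hS f).symm⟩

variable {s τ : K3 →ₐ[ℂ] M3}

theorem trF {N : ℕ} (hN : N ≠ 0) {η t : K3} (h0 : η ≠ 0) (h1 : s η = io η) (h2 : τ η = rr ^ N * io η)
    (h5 : s t = io t + rr) : Algebra.trdeg ℂ ↥(EQ s ⊓ EQ τ) ≤ 1 := by
  let F := EQ s ⊓ EQ τ
  let L : IntermediateField F K3 := extendScalars (inf_le_left : F ≤ EQ s)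
  haveI : Algebra.Transcendental F L := ⟨⟨η, h1⟩, fun h => tr τ (fun f : F => f.2.2) (y := η) (q := C η * X ^ N)
    (by rwa [natDegree_C_mul_X_pow _ _ h0]) (by rw [h2, map_mul, map_pow, mul_comm]; rfl)
    (IntermediateField.isAlgebraic_iff.mp h)⟩
  haveI : Algebra.Transcendental L K3 := ⟨t, tr s (fun f : L => f.2) (q := X + C t) (by simp)
    (by rw [h5, map_add, add_comm]; rfl)⟩
  have e1 := trdeg_add_eq ℂ F (A := K3)
  have e2 := trdeg_add_eq F L (A := K3)
  have p1 := Cardinal.one_le_iff_pos.mpr (trdeg_pos F L)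
  have p2 := Cardinal.one_le_iff_pos.mpr (trdeg_pos L K3)
  rw [← e2, trdeg3] at e1
  have : Algebra.trdeg ℂ F + (2 : ℕ) ≤ 1 + (2 : ℕ) := by
    calc _ = Algebra.trdeg ℂ F + (1 + 1) := by norm_num
      _ ≤ _ := add_le_add_right (add_le_add p1 p2) _
      _ = _ := by rw [e1]; norm_num
  exact (Cardinal.add_nat_le_add_nat_iff 2).mp this

theorem dz (hτ : ∀ i, τ (x3 i) = rr * io (x3 i)) {f : K3} (hf : τ f = io f) :
    f ∈ adjoin ℂ {x3 0 / x3 2, x3 1 / x3 2} := by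
  classical
  have x2 : x3 2 ≠ 0 := xx_ind.ne_zero 2
  obtain ⟨L, E, hE, hL⟩ := cden fun _ => f * x3 2
  have H := homog hτ hE (L := L) (i := 0) (by rw [← hL, map_mul, map_mul, hf, hτ]; ring) x3
  let q := (X * SS E).map (MvPolynomial.aeval x3 : R3 →ₐ[ℂ] K3).toRingHom
  have hq : q ≠ 0 := (Polynomial.map_ne_zero_iff xx_ind).mpr (mul_ne_zero X_ne_zero fun h =>
    hE (by rw [← SS_one E, h, eval_zero]))
  obtain ⟨c, hc⟩ : ∃ c : ℂ, ¬ q.IsRoot (algebraMap ℂ K3 c / x3 2) := by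
    by_contra! h
    refine Set.infinite_range_of_injective (f := fun c : ℂ => algebraMap ℂ K3 c / x3 2)
      (fun a b e => (algebraMap ℂ K3).injective ((div_left_inj' x2).mp e))
      ((q.roots.toFinset.finite_toSet).subset ?_)
    rintro _ ⟨c, rfl⟩
    simpa [hq] using h c
  rw [IsRoot, eval_map, eval₂_mul, eval₂_X, SS_ev, mul_eq_zero, not_or] at hc
  set S := adjoin ℂ {x3 0 / x3 2, x3 1 / x3 2}
  have hm : ∀ G : R3, MvPolynomial.aeval (fun j => algebraMap ℂ K3 c / x3 2 * x3 j) G ∈ S := fun G => by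
    induction G using MvPolynomial.induction_on with
    | C r => simp
    | add p q hp hq => rw [map_add]; exact add_mem hp hq
    | mul_X p i hp =>
      rw [map_mul, MvPolynomial.aeval_X, div_mul_eq_mul_div, mul_div_assoc]
      refine mul_mem hp (mul_mem (IntermediateField.algebraMap_mem _ _) ?_)
      fin_cases i
      · exact subset_adjoin _ _ (by simp)
      · exact subset_adjoin _ _ (by simp)
      · simp [x2]
  have e1 := hL 0
  have e2 := H (algebraMap ℂ K3 c / x3 2)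
  have n1 : MvPolynomial.aeval x3 E ≠ 0 := aev_ne (AlgHom.id ℂ K3) hE
  rw [rm, eq_div_iff n1] at e1
  have c0 : algebraMap ℂ K3 c ≠ 0 := fun h => hc.1 (by simp [h])
  have : f = MvPolynomial.aeval (fun j => algebraMap ℂ K3 c / x3 2 * x3 j) (L 0) /
      (algebraMap ℂ K3 c * MvPolynomial.aeval (fun j => algebraMap ℂ K3 c / x3 2 * x3 j) E) := by
    rw [eq_div_iff (mul_ne_zero c0 hc.2)]
    refine mul_right_cancel₀ n1 ?_
    change _ * MvPolynomial.aeval x3 E = _ * MvPolynomial.aeval x3 E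
    rw [e2, ← e1]; field_simp
  exact this ▸ div_mem (hm _) (mul_mem (IntermediateField.algebraMap_mem _ _) (hm _))

theorem core (hτ : ∀ i, τ (x3 i) = rr * io (x3 i)) {t : K3} (h5 : s t = io t + rr) (h6 : τ t = rr⁻¹ * io t)
    (h : ∀ i, ∃ (α β : K3[X]) (n : ℤ), β.eval t ≠ 0 ∧ α.eval t = x3 i * β.eval t ∧
      (∀ j, s (α.coeff j) = io (α.coeff j) ∧ τ (α.coeff j) = rr ^ (1 - n + j) * io (α.coeff j)) ∧
      (∀ j, s (β.coeff j) = io (β.coeff j) ∧ τ (β.coeff j) = rr ^ (-n + j) * io (β.coeff j))) :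
    ∃ (N : ℕ) (η ρ : K3), s η = io η ∧ τ η = rr ^ N * io η ∧ s ρ = io ρ ∧ τ ρ = io ρ ∧
      ∀ i, x3 i ∈ adjoin ℂ {η, ρ, t} := by
  classical
  have hr := rr_ne
  have ht : t ≠ 0 := by
    rintro rfl
    rw [map_zero, map_zero, zero_add] at h5
    exact hr h5.symm
  let D : AddSubgroup ℤ :=
    { carrier := {d | ∃ f, f ≠ 0 ∧ s f = io f ∧ τ f = rr ^ d * io f}
      zero_mem' := ⟨1, one_ne_zero, by simp, by simp⟩
      add_mem' := fun ⟨f, a1, a2, a3⟩ ⟨g, b1, b2, b3⟩ => ⟨f * g, mul_ne_zero a1 b1, by simp only [map_mul, a2, b2],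
        by simp only [map_mul, a3, b3, zpow_add₀ hr]; ring⟩
      neg_mem' := fun ⟨f, a1, a2, a3⟩ => ⟨f⁻¹, inv_ne_zero a1, by simp only [map_inv₀, a2],
        by simp only [map_inv₀, a3, zpow_neg, mul_inv]⟩ }
  obtain ⟨d0, hd⟩ := Int.subgroup_cyclic D
  have hdv : ∀ d ∈ D, (d0.natAbs : ℤ) ∣ d := fun d h => by
    rw [hd, AddSubgroup.mem_closure_singleton] at h
    obtain ⟨k, rfl⟩ := h
    exact Int.natAbs_dvd.mpr (Dvd.intro_left k rfl)
  have hN : (d0.natAbs : ℤ) ∈ D := by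
    have : d0 ∈ D := hd ▸ AddSubgroup.mem_closure_singleton_self d0
    rcases Int.natAbs_eq d0 with e | e
    · exact e ▸ this
    · simpa [← neg_eq_iff_eq_neg.mpr e] using neg_mem this
  generalize d0.natAbs = N at hdv hN
  choose α β n a1 a2 a3 a4 using h
  have xn : ∀ i, x3 i ≠ 0 := xx_ind.ne_zero
  by_cases h0 : N = 0
  · have hz : ∀ f, f ≠ 0 → s f = io f → ∀ d : ℤ, τ f = rr ^ d * io f → d = 0 := fun f b1 b2 d b3 => by
      simpa [h0] using hdv d ⟨f, b1, b2, b3⟩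
    have mono : ∀ (p : K3[X]) (m : ℤ), p.eval t ≠ 0 → (∀ j, s (p.coeff j) = io (p.coeff j) ∧
        τ (p.coeff j) = rr ^ (m + j) * io (p.coeff j)) → ∃ c, s c = io c ∧ p.eval t = c * t ^ (-m) := by
      intro p m b1 b2
      obtain ⟨j, hj⟩ : ∃ j, p.coeff j ≠ 0 := by
        by_contra! e
        exact b1 (by rw [Polynomial.ext (q := 0) e, eval_zero])
      have e1 := hz _ hj (b2 j).1 _ (b2 j).2
      refine ⟨p.coeff j, (b2 j).1, ?_⟩
      rw [eval_eq_sum, sum_def, Finset.sum_eq_single j (fun k hk e => ?_) (by simp [hj]),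
        show -m = j by omega, zpow_natCast]
      have := hz _ (mem_support_iff.mp hk) (b2 k).1 _ (b2 k).2
      omega
    have hy : ∀ i, s (x3 i * t) = io (x3 i * t) := fun i => by
      obtain ⟨c, b1, b2⟩ := mono _ _ (a2 i ▸ mul_ne_zero (xn i) (a1 i)) (a3 i)
      obtain ⟨c', b3, b4⟩ := mono _ _ (a1 i) (a4 i)
      have c0 : c' ≠ 0 := fun e => a1 i (by simp [b4, e])
      have : x3 i * t = c / c' := by
        have := a2 i
        rw [b2, b4, neg_sub, neg_neg, zpow_sub_one₀ ht] at this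
        have := zpow_ne_zero (n i) ht
        field_simp at *
        linear_combination -this
      rw [this, map_div₀, map_div₀, b1, b3]
    have e : ∀ i, x3 i / x3 2 = x3 i * t / (x3 2 * t) := fun i => (mul_div_mul_right _ _ ht).symm
    have e' : ∀ i, τ (x3 i / x3 2) = io (x3 i / x3 2) := fun i => by
      rw [map_div₀, map_div₀, hτ, hτ, mul_div_mul_left _ _ hr]
    have e2 : ∀ i, s (x3 i / x3 2) = io (x3 i / x3 2) := fun i => by rw [e, map_div₀, map_div₀, hy, hy]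
    refine ⟨0, x3 0 / x3 2, x3 1 / x3 2, e2 0, by simpa using e' 0, e2 1, e' 1, ?_⟩
    set S := adjoin ℂ {x3 0 / x3 2, x3 1 / x3 2, t}
    have m2 : x3 2 ∈ S := by
      have := adjoin.mono ℂ _ {x3 0 / x3 2, x3 1 / x3 2, t} (by simp [Set.insert_subset_iff])
        (dz hτ (f := x3 2 * t) (by rw [map_mul, map_mul, hτ, h6]; field_simp))
      simpa [ht] using div_mem this (subset_adjoin ℂ _ (by simp) : t ∈ S)
    intro i
    fin_cases i
    · simpa [xn 2] using mul_mem (subset_adjoin ℂ _ (by simp) : x3 0 / x3 2 ∈ S) m2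
    · simpa [xn 2] using mul_mem (subset_adjoin ℂ _ (by simp) : x3 1 / x3 2 ∈ S) m2
    · exact m2
  · obtain ⟨η, b1, b2, b3⟩ := hN
    let G : Finset K3 := Finset.univ.biUnion fun i => (α i).coeffs ∪ (β i).coeffs
    have hG : ∀ c : G, ∃ k : ℤ, c * η ^ (-k) ∈ EQ s ⊓ EQ τ := by
      rintro ⟨c, hc⟩
      obtain ⟨d, c0, c1, c2⟩ : ∃ d : ℤ, c ≠ 0 ∧ s c = io c ∧ τ c = rr ^ d * io c := by
        obtain ⟨i, -, hi⟩ := Finset.mem_biUnion.mp hc
        rcases Finset.mem_union.mp hi with hi | hi <;> obtain ⟨j, hj, rfl⟩ := mem_coeffs_iff.mp hi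
        · exact ⟨_, mem_support_iff.mp hj, a3 i j⟩
        · exact ⟨_, mem_support_iff.mp hj, a4 i j⟩
      obtain ⟨k, rfl⟩ := hdv d ⟨c, c0, c1, c2⟩
      refine ⟨k, show s _ = io _ by simp only [map_mul, map_zpow₀, c1, b2], show τ _ = io _ from ?_⟩
      rw [map_mul, map_mul, map_zpow₀, map_zpow₀, c2, b3, mul_zpow, ← zpow_mul, mul_neg, zpow_neg,
        mul_mul_mul_comm, mul_inv_cancel₀ (zpow_ne_zero _ hr), one_mul]
    choose k hk using hG
    rw [zpow_natCast] at b3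
    obtain ⟨ρ, r1, r2⟩ := lur _ (trF h0 b1 b2 b3 h5) _ hk
    refine ⟨N, η, ρ, b2, b3, r1.1, r1.2, fun i => ?_⟩
    set S := adjoin ℂ {η, ρ, t}
    have m : ∀ c ∈ G, c ∈ S := fun c hc => by
      have := mul_mem (adjoin.mono ℂ _ {η, ρ, t} (by simp) (r2 ⟨c, hc⟩))
        (zpow_mem (subset_adjoin ℂ _ (by simp) : η ∈ S) (k ⟨c, hc⟩))
      simpa [zpow_ne_zero _ b1] using this
    have m' : ∀ p : K3[X], p.coeffs ⊆ G → p.eval t ∈ S := fun p hp => by
      rw [eval_eq_sum, sum_def]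
      exact sum_mem fun j hj => mul_mem (m _ (hp (coeff_mem_coeffs (mem_support_iff.mp hj))))
        (pow_mem (subset_adjoin ℂ _ (by simp)) _)
    rw [eq_div_of_mul_eq (a1 i) (a2 i).symm]
    exact div_mem (m' _ fun c hc => Finset.mem_biUnion.mpr ⟨i, Finset.mem_univ _, Finset.mem_union_left _ hc⟩)
      (m' _ fun c hc => Finset.mem_biUnion.mpr ⟨i, Finset.mem_univ _, Finset.mem_union_right _ hc⟩)

end Pool.Agent.H.MP_bb5dbd_ag
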